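import Pool.Agent.N993.WU.Defs

/-!
# Project WU (helper993), part DOWN (helper564): rotating from a side `up j τ k`
-/

set_option autoImplicit false
set_option linter.all false

namespace Pool.Agent.N564.WU

open Pool.Agent.N993.WU

variable {V J S : Type} {A : Dat V J S}

theorem isX_of_letter {s : Side J S} {v : V} {b : Bool} (h : A.letter s = (Sum.inl v, b)) :
    IsX s := by
  cases s with
  | uu j τ i => trivial
  | up j τ k => simp [Dat.letter] at h
  | vv j τ k i => trivial
  | dn j τ k => simp [Dat.letter] at h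
  | st s τ => simp [Dat.letter] at h
  | lt => trivial

theorem sig_eq (N : ND A) (d : N.D) : N.σ d = N.opp (N.nxt.symm d) := rfl

theorem ty_prev (N : ND A) (d : N.D) : A.nx (N.ty (N.nxt.symm d)) = N.ty d := by
  rw [← N.ty_nxt, Equiv.apply_symm_apply]

theorem nx_up_zero {s : Side J S} {j : J} {τ : Bool} (hv : A.Valid s) (h : A.nx s = .up j τ 0) :
    s = .uu j τ (A.lu j - 1) := by
  cases s with
  | uu j' τ' i =>
    simp only [Dat.nx] at h
    split_ifs at h with h1
    simp only [Side.up.injEq, and_true] at h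
    obtain ⟨rfl, rfl⟩ := h
    have h2 : i < A.lu j' := hv
    have : i = A.lu j' - 1 := by omega
    rw [this]
  | up j' τ' k => simp [Dat.nx] at h
  | vv j' τ' k i =>
    simp only [Dat.nx] at h
    split_ifs at h
  | dn j' τ' k =>
    simp only [Dat.nx] at h
    split_ifs at h with h1
    simp at h
  | st s τ' => simp [Dat.nx] at h
  | lt s τ' i =>
    simp only [Dat.nx] at h
    split_ifs at h

theorem nx_up_succ {s : Side J S} {j : J} {τ : Bool} {k : ℕ} (h : A.nx s = .up j τ (k + 1)) :
    s = .dn j τ k := by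
  cases s with
  | uu j' τ' i =>
    simp only [Dat.nx] at h
    split_ifs at h with h1
    simp at h
  | up j' τ' k => simp [Dat.nx] at h
  | vv j' τ' k i =>
    simp only [Dat.nx] at h
    split_ifs at h
  | dn j' τ' k' =>
    simp only [Dat.nx] at h
    split_ifs at h with h1
    simp only [Side.up.injEq, Nat.add_right_cancel_iff] at h
    rw [h.1, h.2.1, h.2.2]
  | st s τ' => simp [Dat.nx] at h
  | lt s τ' i =>
    simp only [Dat.nx] at h
    split_ifs at h

theorem nx_st {s : Side J S} {s₀ : S} {τ : Bool} (h : A.nx s = .st s₀ τ) :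
    ∃ i, s = .lt s₀ τ i := by
  cases s with
  | uu j' τ' i =>
    simp only [Dat.nx] at h
    split_ifs at h
  | up j' τ' k => simp [Dat.nx] at h
  | vv j' τ' k i =>
    simp only [Dat.nx] at h
    split_ifs at h
  | dn j' τ' k' =>
    simp only [Dat.nx] at h
    split_ifs at h with h1
  | st s τ' => simp [Dat.nx] at h
  | lt s τ' i =>
    simp only [Dat.nx] at h
    split_ifs at h with h1
    simp only [Side.st.injEq] at h
    exact ⟨i, by rw [h.1, h.2]⟩

/-- places with the same stable letter -/
theorem kap_inj (hA : A.Good) {j j' : J} {τ τ' : Bool} {k k' : ℕ} (hk : k < A.c j)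
    (hk' : k' < A.c j') (h : A.kap j' τ' k' = A.kap j τ k) :
    j' = j ∧ ((τ' = τ ∧ k' = k) ∨ (τ' = !τ ∧ k' = A.c j - 1 - k)) := by
  unfold Dat.kap at h
  have h1 : (if τ' then k' else A.c j' - 1 - k') < A.c j' := by split_ifs <;> omega
  have h2 : (if τ then k else A.c j - 1 - k) < A.c j := by split_ifs <;> omega
  obtain ⟨rfl, h3⟩ := hA.st_inj _ _ _ _ h1 h2 h
  refine ⟨rfl, ?_⟩
  cases τ <;> cases τ' <;> simp at h3 ⊢ <;> omega

/-- (K1) -/
theorem k1 (hA : A.Good) (N : ND A) (p : N.D) {j : J} {τ : Bool} {k : ℕ}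
    (hp : N.ty p = .dn j τ k) : N.ty (N.opp p) = .up j τ k ∨ ∃ s, N.ty (N.opp p) = .st s false := by
  have h1 := N.letter_opp p
  have h2 := N.red p
  have h3 := N.valid (N.opp p)
  have h4 := N.valid p
  rw [hp] at h1 h2 h4
  have h5 : A.letter (N.ty (N.opp p)) = (Sum.inr (A.kap j τ k), true) := h1
  cases hT : N.ty (N.opp p) with
  | uu j' τ' i => rw [hT] at h5; simp [Dat.letter] at h5
  | up j' τ' k' =>
    left
    rw [hT] at h5 h3 h2
    simp only [Dat.letter, Prod.mk.injEq, Sum.inr.injEq, and_true] at h5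
    obtain ⟨rfl, h6 | h6⟩ := kap_inj hA h4 h3 h5
    · rw [h6.1, h6.2]
    · exfalso
      apply h2
      rw [h6.1, h6.2]
      rfl
  | vv j' τ' k' i => rw [hT] at h5; simp [Dat.letter] at h5
  | dn j' τ' k' => rw [hT] at h5; simp [Dat.letter] at h5
  | st s τ' =>
    right
    rw [hT] at h5
    simp only [Dat.letter, Prod.mk.injEq, Sum.inr.injEq, Bool.not_eq_eq_eq_not, Bool.not_true] at h5
    exact ⟨s, by rw [h5.2]⟩
  | lt s τ' i => rw [hT] at h5; simp [Dat.letter] at h5

theorem t_down : S_DOWN := by
  intro V J S A N hA j τ k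
  induction k with
  | zero =>
    intro d hd
    have h1 := nx_up_zero (N.valid _) ((ty_prev N d).trans hd)
    refine ⟨0, ?_, ?_, Or.inl ?_⟩
    · intro i hi
      have : i = 0 := by omega
      subst this
      rw [pow_zero, Equiv.Perm.one_apply, hd]
      exact id
    · rw [zero_add, pow_one, sig_eq]
      have h2 := N.letter_opp (N.nxt.symm d)
      rw [h1] at h2
      exact isX_of_letter h2
    · rw [zero_add, pow_one, sig_eq, N.opp_opp, h1]
  | succ k ih =>
    intro d hd
    have h1 := nx_up_succ ((ty_prev N d).trans hd)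
    have h2 := k1 hA N (N.nxt.symm d) h1
    rw [← sig_eq] at h2
    rcases h2 with h2 | ⟨s, h2⟩
    · obtain ⟨r, hr1, hr2, hr3⟩ := ih (N.σ d) h2
      refine ⟨r + 1, ?_, ?_, ?_⟩
      · intro i hi
        rcases i with _ | i
        · rw [pow_zero, Equiv.Perm.one_apply, hd]
          exact id
        · rw [pow_succ, Equiv.Perm.mul_apply]
          exact hr1 i (by omega)
      · rw [pow_succ, Equiv.Perm.mul_apply]
        exact hr2
      · rw [pow_succ, Equiv.Perm.mul_apply]
        have e : (N.σ ^ (r + 1)) d = (N.σ ^ r) (N.σ d) := by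
          rw [pow_succ, Equiv.Perm.mul_apply]
        rw [e]
        exact hr3
    · obtain ⟨i, h3⟩ := nx_st ((ty_prev N (N.σ d)).trans h2)
      have e2 : (N.σ ^ (1 + 1)) d = N.opp (N.nxt.symm (N.σ d)) := by
        rw [pow_succ, Equiv.Perm.mul_apply, pow_one, sig_eq]
      refine ⟨1, ?_, ?_, Or.inr ⟨?_, s, false, i, ?_⟩⟩
      · intro i' hi'
        rcases i' with _ | i'
        · rw [pow_zero, Equiv.Perm.one_apply, hd]
          exact id
        · have : i' = 0 := by omega
          subst this
          rw [zero_add, pow_one, h2]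
          exact id
      · rw [e2]
        have h4 := N.letter_opp (N.nxt.symm (N.σ d))
        rw [h3] at h4
        exact isX_of_letter h4
      · rw [pow_one, h2]
        trivial
      · rw [e2, N.opp_opp, h3]

end Pool.Agent.N564.WU
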